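import Pool.Agent.CycSyl.Iso

/-!
Counting elements of the Hurwitz order of given norm lying in a subset which is stable under
multiplication by the normalised elements of norm `s`.
-/

set_option autoImplicit false

namespace Pool.Agent.H56.Exact

open Pool.Agent.CycSyl Pool.Agent.CycSyl.Hz Finset

theorem finite_M (n : ℕ) : {x : Hz ℤ | nrm x = n}.Finite := by
  let B : ℤ := 4 * n + 4
  apply Set.Finite.subset (s := (fun p : ℤ × ℤ × ℤ × ℤ => (⟨p.1, p.2.1, p.2.2.1, p.2.2.2⟩ : Hz ℤ)) ''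
    (Set.Icc (-B) B ×ˢ Set.Icc (-B) B ×ˢ Set.Icc (-B) B ×ˢ Set.Icc (-B) B))
  · apply Set.Finite.image
    exact (Set.finite_Icc _ _).prod ((Set.finite_Icc _ _).prod ((Set.finite_Icc _ _).prod
      (Set.finite_Icc _ _)))
  · intro x hx
    have hx : nrm x = n := hx
    refine ⟨(x.a, x.b, x.c, x.d), ?_, rfl⟩
    have h4 := four_nrm x
    rw [hx] at h4
    have hn : (0 : ℤ) ≤ n := by positivity
    have h0 := sq_nonneg (2 * x.a + x.d)
    have h1 := sq_nonneg (2 * x.b + x.d)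
    have h2 := sq_nonneg (2 * x.c + x.d)
    have h3 := sq_nonneg x.d
    have hb : (4 : ℤ) * n ≤ (2 * n + 1) ^ 2 := by nlinarith
    have e0 := abs_le_of_sq (z := 2 * x.a + x.d) (n := 2 * n + 1) (by linarith) (by linarith)
    have e1 := abs_le_of_sq (z := 2 * x.b + x.d) (n := 2 * n + 1) (by linarith) (by linarith)
    have e2 := abs_le_of_sq (z := 2 * x.c + x.d) (n := 2 * n + 1) (by linarith) (by linarith)
    have e3 := abs_le_of_sq (z := x.d) (n := 2 * n + 1) (by linarith) (by linarith)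
    simp only [Set.mem_prod, Set.mem_Icc, B]
    omega

/-- elements of norm `n` of the Hurwitz order -/
noncomputable def Y (n : ℕ) : Finset (Hz ℤ) := (finite_M n).toFinset

theorem mem_Y {n : ℕ} {x : Hz ℤ} : x ∈ Y n ↔ nrm x = n := by
  simp [Y]

open Classical in
/-- number of elements of norm `n` with property `P` -/
noncomputable def C (P : Hz ℤ → Prop) (n : ℕ) : ℤ := (((Y n).filter P).card : ℤ)

theorem C_def (P : Hz ℤ → Prop) [DecidablePred P] (n : ℕ) :
    C P n = (((Y n).filter P).card : ℤ) := by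
  unfold C
  congr!

theorem C_congr {P Q : Hz ℤ → Prop} {n : ℕ} (h : ∀ x ∈ Y n, (P x ↔ Q x)) : C P n = C Q n := by
  classical
  rw [C_def, C_def, Finset.filter_congr h]

theorem C_zero {P : Hz ℤ → Prop} {n : ℕ} (h : ∀ x ∈ Y n, ¬ P x) : C P n = 0 := by
  classical
  rw [C_def, Finset.filter_false_of_mem h, Finset.card_empty]; rfl

theorem C_split (P Q : Hz ℤ → Prop) (n : ℕ) :
    C P n = C (fun x => P x ∧ Q x) n + C (fun x => P x ∧ ¬ Q x) n := by
  classical
  rw [C_def, C_def, C_def, ← Finset.card_filter_add_card_filter_not (s := (Y n).filter P) Q,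
    Finset.filter_filter, Finset.filter_filter]
  push_cast; rfl

/-- stability of a subset -/
structure Stab (s : ℕ) (P : Hz ℤ → Prop) : Prop where
  sc : ∀ x : Hz ℤ, P (Hz.sc (s : ℤ) * x) ↔ P x
  right : ∀ x y : Hz ℤ, OP y → nrm y = (s : ℤ) → (P (x * y) ↔ P x)
  left : ∀ x y : Hz ℤ, OP y → nrm y = (s : ℤ) → (P (Hz.conj y * x) ↔ P x)

/-- scaling: the elements divisible by `s` -/
theorem C_scale {s : ℕ} (hs0 : s ≠ 0) {n : ℕ} {P : Hz ℤ → Prop} (hP : Stab s P) :
    C (fun x => P x ∧ sc (s : ℤ) ∣ x) (s * (s * n)) = C P n := by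
  classical
  have hsz : (s : ℤ) ≠ 0 := by exact_mod_cast hs0
  rw [C_def, C_def]
  congr 1
  symm
  apply Finset.card_nbij (fun z => sc (s : ℤ) * z)
  · intro z hz
    simp only [Finset.coe_filter, Set.mem_ofPred_eq, mem_Y] at hz ⊢
    obtain ⟨h3, h4⟩ := hz
    refine ⟨?_, (hP.sc z).2 h4, ⟨z, rfl⟩⟩
    rw [nrm_mul, nrm_sc, h3]; push_cast; ring
  · intro z _ z' _ h
    exact sc_inj_mul hsz h
  · intro x hx
    simp only [Finset.coe_filter, Set.mem_ofPred_eq, mem_Y] at hx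
    obtain ⟨h3, h4, z, hz⟩ := hx
    refine ⟨z, ?_, hz.symm⟩
    simp only [Finset.coe_filter, Set.mem_ofPred_eq, mem_Y]
    refine ⟨?_, ?_⟩
    · have h7 : nrm x = s ^ 2 * nrm z := by rw [hz, nrm_mul, nrm_sc]
      have h8 : (s : ℤ) ^ 2 * nrm z = s ^ 2 * n := by
        rw [← h7, h3]; push_cast; ring
      exact mul_left_cancel₀ (pow_ne_zero 2 hsz) h8
    · rw [← hP.sc, ← hz]; exact h4

/-- Hecke relation, raw form. -/
theorem C_mul {s : ℕ} (hs : s.Prime) (h11 : s ≠ 11) {m : ℕ} {P : Hz ℤ → Prop} (hP : Stab s P) :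
    ((X s).card : ℤ) * C P m = C P (s * m) +
      (((X s).card : ℤ) - 1) * C (fun x => P x ∧ sc (s : ℤ) ∣ x) (s * m) := by
  classical
  have hs0 : (s : ℤ) ≠ 0 := by exact_mod_cast hs.ne_zero
  have step1 : ((X s).card : ℤ) * C P m =
      ∑ y ∈ X s, ((((Y (s * m)).filter P).filter (fun b => LM b y)).card : ℤ) := by
    rw [C_def, ← nsmul_eq_mul, ← Finset.sum_const]
    apply Finset.sum_congr rfl
    intro y hy
    have hy' := mem_X.1 hy
    congr 1
    apply Finset.card_nbij (fun x => x * y)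
    · intro x hx
      simp only [Finset.coe_filter, Set.mem_ofPred_eq, Finset.mem_filter, mem_Y] at hx ⊢
      refine ⟨⟨?_, (hP.right x y hy'.1 hy'.2).2 hx.2⟩, x, rfl⟩
      rw [nrm_mul, hx.1, hy'.2]; push_cast; ring
    · intro x _ x' _ h
      have hy0 : y ≠ 0 := by
        rintro rfl; rw [nrm_zero] at hy'; exact hs0 hy'.2.symm
      exact mul_right_cancel₀ hy0 h
    · intro b hb
      simp only [Finset.coe_filter, Set.mem_ofPred_eq, Finset.mem_filter, mem_Y] at hb
      obtain ⟨⟨hb1, hb2⟩, x, hx⟩ := hb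
      refine ⟨x, ?_, hx.symm⟩
      simp only [Finset.coe_filter, Set.mem_ofPred_eq, mem_Y]
      refine ⟨?_, ?_⟩
      · have : nrm x * s = m * s := by
          rw [← hy'.2, ← nrm_mul, ← hx, hb1, hy'.2]; push_cast; ring
        exact mul_right_cancel₀ hs0 this
      · rw [← hP.right x y hy'.1 hy'.2, ← hx]; exact hb2
  have step2 : ∑ y ∈ X s, ((((Y (s * m)).filter P).filter (fun b => LM b y)).card : ℤ) =
      ∑ b ∈ (Y (s * m)).filter P, (if sc (s : ℤ) ∣ b then ((X s).card : ℤ) else 1) := by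
    have h1 : ∀ y ∈ X s, ((((Y (s * m)).filter P).filter (fun b => LM b y)).card : ℤ) =
        ∑ b ∈ (Y (s * m)).filter P, (if LM b y then (1 : ℤ) else 0) := by
      intro y _
      rw [Finset.sum_boole]
    rw [Finset.sum_congr rfl h1, Finset.sum_comm]
    apply Finset.sum_congr rfl
    intro b hb
    rw [Finset.mem_filter, mem_Y] at hb
    rw [Finset.sum_boole, card_LM hs h11 (by rw [hb.1]; push_cast; exact dvd_mul_right _ _)]
    split_ifs <;> simp
  rw [step1, step2]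
  have h3 : ∀ b ∈ (Y (s * m)).filter P, (if sc (s : ℤ) ∣ b then ((X s).card : ℤ) else 1) =
      1 + (((X s).card : ℤ) - 1) * (if sc (s : ℤ) ∣ b then (1 : ℤ) else 0) := by
    intro b _
    split_ifs <;> ring
  rw [Finset.sum_congr rfl h3, Finset.sum_add_distrib, ← Finset.mul_sum, Finset.sum_boole,
    Finset.sum_const, C_def, C_def, Finset.filter_filter]
  simp

theorem hecke1 {s : ℕ} (hs : s.Prime) (h11 : s ≠ 11) {m : ℕ} (hm : ¬ s ∣ m)
    {P : Hz ℤ → Prop} (hP : Stab s P) : C P (s * m) = ((X s).card : ℤ) * C P m := by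
  rw [C_mul hs h11 hP]
  have h2 : C (fun x => P x ∧ sc (s : ℤ) ∣ x) (s * m) = 0 := by
    apply C_zero
    rintro x hx ⟨_, h⟩
    apply hm
    have h1 := sc_dvd_nrm h
    rw [mem_Y.1 hx, sq] at h1
    have h2 : s * s ∣ s * m := by exact_mod_cast h1
    exact Nat.dvd_of_mul_dvd_mul_left hs.pos h2
  rw [h2]; ring

theorem hecke2 {s : ℕ} (hs : s.Prime) (h11 : s ≠ 11) {m : ℕ}
    {P : Hz ℤ → Prop} (hP : Stab s P) : C P (s * (s * m)) = ((X s).card : ℤ) * C P (s * m) -
      (((X s).card : ℤ) - 1) * C P m := by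
  rw [C_mul hs h11 hP, C_scale hs.ne_zero hP]
  ring

open Classical in
/-- rotation: elements of norm `s²n` with trace divisible by `s`, not divisible by `s`. -/
theorem C_rot {s : ℕ} (hs : s.Prime) (h11 : s ≠ 11) {n : ℕ} {P : Hz ℤ → Prop} (hP : Stab s P) :
    C (fun x => (P x ∧ (s : ℤ) ∣ tr x) ∧ ¬ sc (s : ℤ) ∣ x) (s * (s * n)) =
      ∑ z ∈ (Y n).filter P,
        (((X s).filter (fun y => ¬ sc (s : ℤ) ∣ conj y * z * y)).card : ℤ) := by
  have hs0 : (s : ℤ) ≠ 0 := by exact_mod_cast hs.ne_zero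
  have step1 : C (fun x => (P x ∧ (s : ℤ) ∣ tr x) ∧ ¬ sc (s : ℤ) ∣ x) (s * (s * n)) =
      ∑ y ∈ X s, ((((Y (s * (s * n))).filter
        (fun x => (P x ∧ (s : ℤ) ∣ tr x) ∧ ¬ sc (s : ℤ) ∣ x)).filter
          (fun x => LM x y)).card : ℤ) := by
    have h1 : ∀ y ∈ X s, ((((Y (s * (s * n))).filter
        (fun x => (P x ∧ (s : ℤ) ∣ tr x) ∧ ¬ sc (s : ℤ) ∣ x)).filter
          (fun x => LM x y)).card : ℤ) = ∑ x ∈ (Y (s * (s * n))).filter
        (fun x => (P x ∧ (s : ℤ) ∣ tr x) ∧ ¬ sc (s : ℤ) ∣ x), (if LM x y then (1 : ℤ) else 0) := by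
      intro y _
      rw [Finset.sum_boole]
    rw [Finset.sum_congr rfl h1, Finset.sum_comm, C_def, Finset.card_eq_sum_ones]
    push_cast
    apply Finset.sum_congr rfl
    intro x hx
    rw [Finset.mem_filter, mem_Y] at hx
    rw [Finset.sum_boole, card_LM hs h11 (by rw [hx.1]; push_cast; exact dvd_mul_right _ _),
      if_neg hx.2.2]
    simp
  have step2 : ∀ y ∈ X s, ((((Y (s * (s * n))).filter
        (fun x => (P x ∧ (s : ℤ) ∣ tr x) ∧ ¬ sc (s : ℤ) ∣ x)).filter (fun x => LM x y)).card : ℤ) =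
      ((((Y n).filter P).filter (fun z => ¬ sc (s : ℤ) ∣ conj y * z * y)).card : ℤ) := by
    intro y hy
    have hy' := mem_X.1 hy
    have hy0 : y ≠ 0 := by
      rintro rfl; rw [nrm_zero] at hy'; exact hs0 hy'.2.symm
    have hcy0 : conj y ≠ 0 := by
      intro h; rw [← nrm_eq_zero, nrm_conj, hy'.2] at h; exact hs0 h
    have hPc : ∀ z, P (conj y * z * y) ↔ P z := by
      intro z
      rw [hP.right _ y hy'.1 hy'.2, hP.left _ y hy'.1 hy'.2]
    congr 1
    symm
    apply Finset.card_nbij (fun z => conj y * z * y)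
    · intro z hz
      simp only [Finset.coe_filter, Set.mem_ofPred_eq, Finset.mem_filter, mem_Y] at hz ⊢
      obtain ⟨⟨hz3, hzP⟩, hzd⟩ := hz
      refine ⟨⟨?_, ⟨(hPc z).2 hzP, ?_⟩, hzd⟩, conj y * z, rfl⟩
      · rw [nrm_mul, nrm_mul, nrm_conj, hz3, hy'.2]; push_cast; ring
      · rw [tr_conj_mul_mul, hy'.2]
        exact dvd_mul_right _ _
    · intro z _ z' _ h
      have h2 := mul_right_cancel₀ hy0 h
      exact mul_left_cancel₀ hcy0 h2
    · intro x hx
      simp only [Finset.coe_filter, Set.mem_ofPred_eq, Finset.mem_filter, mem_Y] at hx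
      obtain ⟨⟨hx3, ⟨hxP, hxt⟩, hxd⟩, hxL⟩ := hx
      have hxn : (s : ℤ) ∣ nrm x := by rw [hx3]; push_cast; exact dvd_mul_right _ _
      obtain ⟨v, hv⟩ := key_left hs h11 hxn hxd hxt hy'.1 hy'.2 hxL
      have hvd : ¬ sc (s : ℤ) ∣ v := fun h => hxd (by rw [hv]; exact sc_dvd_mul_left _ h)
      have hvn : nrm v = s * n := by
        have h1 : (s : ℤ) * nrm v = s * (s * n) := by
          rw [← hy'.2, ← nrm_conj y, ← nrm_mul, ← hv, hx3, nrm_conj, hy'.2]; push_cast; ring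
        exact mul_left_cancel₀ hs0 h1
      obtain ⟨y', ⟨⟨hy'1, hy'2⟩, z, hz⟩, _⟩ :=
        existsUnique_right hs h11 (u := v) (by rw [hvn]; exact dvd_mul_right _ _) hvd
      have hyy : y' = y := (existsUnique_right hs h11 hxn hxd).unique
        ⟨⟨hy'1, hy'2⟩, conj y * z, by rw [hv, hz, mul_assoc]⟩ ⟨hy', hxL⟩
      rw [hyy] at hz
      have hxz : x = conj y * z * y := by rw [hv, hz, mul_assoc]
      refine ⟨z, ?_, hxz.symm⟩
      simp only [Finset.coe_filter, Set.mem_ofPred_eq, Finset.mem_filter, mem_Y]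
      refine ⟨⟨?_, ?_⟩, ?_⟩
      · have h7 : nrm z * s = n * s := by
          rw [← hy'.2, ← nrm_mul, ← hz, hvn, hy'.2]; ring
        exact mul_right_cancel₀ hs0 h7
      · rw [← hPc z, ← hxz]; exact hxP
      · rw [← hxz]; exact hxd
  rw [step1, Finset.sum_congr rfl step2]
  have h3 : ∀ y ∈ X s, ((((Y n).filter P).filter
      (fun z => ¬ sc (s : ℤ) ∣ conj y * z * y)).card : ℤ) =
      ∑ z ∈ (Y n).filter P, (if ¬ sc (s : ℤ) ∣ conj y * z * y then (1 : ℤ) else 0) := by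
    intro y _
    rw [Finset.sum_boole]
  rw [Finset.sum_congr rfl h3, Finset.sum_comm]
  apply Finset.sum_congr rfl
  intro z _
  rw [Finset.sum_boole]

/-- the rotation identity -/
theorem C_rot2 {s : ℕ} (hs : s.Prime) (hs22 : s.Coprime 22) {n : ℕ}
    (hsn : s ∣ n) {P : Hz ℤ → Prop} (hP : Stab s P) :
    C (fun x => P x ∧ (s : ℤ) ∣ tr x) (s * (s * n)) =
      (((X s).card : ℤ) - 1) * C P n + C (fun x => P x ∧ (s : ℤ) ∣ tr x) n
       - (((X s).card : ℤ) - 1) * C (fun x => P x ∧ sc (s : ℤ) ∣ x) n := by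
  classical
  have h11 := ne11_of hs22
  rw [C_split (fun x => P x ∧ (s : ℤ) ∣ tr x) (fun x => sc (s : ℤ) ∣ x), C_rot hs h11 hP]
  have e1 : C (fun x => (P x ∧ (s : ℤ) ∣ tr x) ∧ sc (s : ℤ) ∣ x) (s * (s * n)) = C P n := by
    rw [← C_scale hs.ne_zero hP]
    apply C_congr
    intro x _
    constructor
    · rintro ⟨⟨h1, _⟩, h2⟩; exact ⟨h1, h2⟩
    · rintro ⟨h1, h2⟩; exact ⟨⟨h1, sc_dvd_tr h2⟩, h2⟩
  rw [e1]
  have e2 : ∑ z ∈ (Y n).filter P,
        (((X s).filter (fun y => ¬ sc (s : ℤ) ∣ conj y * z * y)).card : ℤ) =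
      ∑ z ∈ (Y n).filter P, (((X s).card : ℤ) - 2
        + (if (s : ℤ) ∣ tr z then (1 : ℤ) else 0)
        - (((X s).card : ℤ) - 1) * (if sc (s : ℤ) ∣ z then (1 : ℤ) else 0)) := by
    apply Finset.sum_congr rfl
    intro z hz
    simp only [Finset.mem_filter, mem_Y] at hz
    have hc := card_not (R := ℤ) (s := s) z
    have hzn : (s : ℤ) ∣ nrm z := by rw [hz.1]; exact_mod_cast hsn
    have hc' : (((X s).filter (fun y => ¬ sc (s : ℤ) ∣ conj y * z * y)).card : ℤ) =
      ((X s).card : ℤ) - (((X s).filter (fun y => sc (s : ℤ) ∣ conj y * z * y)).card : ℤ) := by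
      convert hc
    rw [hc']
    by_cases h : sc (s : ℤ) ∣ z
    · have h1 : (X s).filter (fun y => sc (s : ℤ) ∣ conj y * z * y) = X s := by
        rw [Finset.filter_eq_self]
        intro y _
        exact sc_dvd_mul_right _ (sc_dvd_mul_left _ h)
      rw [h1, if_pos (sc_dvd_tr h), if_pos h]
      ring
    · have h2 := card_e hs hs22 hzn h
      have h2' : ((X s).filter (fun y => sc (s : ℤ) ∣ conj y * z * y)).card =
        if (s : ℤ) ∣ tr z then 1 else 2 := by convert h2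
      rw [h2', if_neg h]
      split_ifs
      · push_cast; ring
      · push_cast; ring
  rw [e2]
  rw [Finset.sum_sub_distrib, Finset.sum_add_distrib, ← Finset.mul_sum, Finset.sum_boole,
    Finset.sum_boole, Finset.sum_const, Finset.filter_filter, Finset.filter_filter, C_def, C_def,
    C_def, nsmul_eq_mul]
  ring

/-- V-identity: odd powers of `s`. -/
theorem C_V {s : ℕ} (hs : s.Prime) (hs22 : s.Coprime 22) {m : ℕ}
    (hsm : ¬ s ∣ m) {P : Hz ℤ → Prop} (hP : Stab s P) (j : ℕ) :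
    C P (s ^ (2 * j + 3) * m) - (((X s).card : ℤ) - 1) * C P (s ^ (2 * j + 1) * m) =
      C (fun x => P x ∧ ¬ (s : ℤ) ∣ tr x) (s ^ (2 * j + 3) * m) +
      C (fun x => P x ∧ (s : ℤ) ∣ tr x) (s * m) := by
  have key : ∀ j, C (fun x => P x ∧ (s : ℤ) ∣ tr x) (s ^ (2 * j + 3) * m) -
      (((X s).card : ℤ) - 1) * C P (s ^ (2 * j + 1) * m) =
      C (fun x => P x ∧ (s : ℤ) ∣ tr x) (s * m) := by
    intro j
    induction j with
    | zero =>
      have h1 := C_rot2 hs hs22 (dvd_mul_right s m) hP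
      have h2 : C (fun x => P x ∧ sc (s : ℤ) ∣ x) (s * m) = 0 := by
        apply C_zero
        rintro x hx ⟨_, h⟩
        apply hsm
        have h1 := sc_dvd_nrm h
        rw [mem_Y.1 hx, sq] at h1
        have h2 : s * s ∣ s * m := by exact_mod_cast h1
        exact Nat.dvd_of_mul_dvd_mul_left hs.pos h2
      have e1 : s ^ (2 * 0 + 3) * m = s * (s * (s * m)) := by ring
      have e2 : s ^ (2 * 0 + 1) * m = s * m := by ring
      rw [e1, e2, h1, h2]; ring
    | succ j ih =>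
      have h1 := C_rot2 (n := s ^ (2 * j + 3) * m) hs hs22
        (Dvd.dvd.mul_right (dvd_pow_self s (by omega)) m) hP
      have h2 := C_scale (n := s ^ (2 * j + 1) * m) hs.ne_zero hP
      have e1 : s ^ (2 * (j + 1) + 3) * m = s * (s * (s ^ (2 * j + 3) * m)) := by ring
      have e2 : s ^ (2 * (j + 1) + 1) * m = s ^ (2 * j + 3) * m := by ring
      have e3 : s * (s * (s ^ (2 * j + 1) * m)) = s ^ (2 * j + 3) * m := by ring
      rw [e3] at h2
      rw [e1, e2, h1, h2, ← ih]; ring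
  rw [C_split P (fun x => (s : ℤ) ∣ tr x) (s ^ (2 * j + 3) * m), ← key j]
  ring

end Pool.Agent.H56.Exact
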