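import Pool.Agent.CycSyl.Field2

/-!
A bound for the discriminant of the field generated by a root of `X² - tX + m`.
-/

set_option autoImplicit false

namespace Pool.Agent.H56.Exact

open Pool.Agent.CycSyl NumberField

section

variable {t m : ℤ}

theorem minpoly_th (h : t ^ 2 < 4 * m) : minpoly ℚ (th t m) =
    Polynomial.X ^ 2 - Polynomial.C (t : ℚ) * Polynomial.X + Polynomial.C (m : ℚ) := by
  symm
  have h1 : (Polynomial.X ^ 2 - Polynomial.C (t : ℚ) * Polynomial.X +
      Polynomial.C (m : ℚ)).Monic := by monicity!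
  have h2 : Polynomial.aeval (th t m) (Polynomial.X ^ 2 - Polynomial.C (t : ℚ) * Polynomial.X +
      Polynomial.C (m : ℚ)) = 0 := by
    simp only [map_add, map_sub, map_mul, map_pow, Polynomial.aeval_X, Polynomial.aeval_C]
    have := th_rel h
    simp only [eq_ratCast, Rat.cast_intCast]
    linear_combination this
  apply minpoly.unique_of_degree_le_degree_minpoly ℚ _ h1 h2
  rw [Polynomial.degree_eq_natDegree (minpoly.ne_zero (th_intQ h)), th_deg h]
  have h3 : (Polynomial.X ^ 2 - Polynomial.C (t : ℚ) * Polynomial.X +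
      Polynomial.C (m : ℚ)).degree ≤ 2 := by compute_degree
  exact h3

theorem trace_th (h : t ^ 2 < 4 * m) :
    Algebra.trace ℚ (Kf t m) (IntermediateField.AdjoinSimple.gen ℚ (th t m)) = t := by
  have h1 := trace_adjoinSimpleGen (K := ℚ) (th_intQ h)
  refine h1.trans ?_
  rw [minpoly_th h]
  have h2 : (Polynomial.X ^ 2 - Polynomial.C (t : ℚ) * Polynomial.X +
      Polynomial.C (m : ℚ)).natDegree = 2 := by compute_degree!
  have h3 : (Polynomial.X ^ 2 - Polynomial.C (t : ℚ) * Polynomial.X +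
      Polynomial.C (m : ℚ)).coeff 1 = -(t : ℚ) := by
    rw [Polynomial.coeff_add, Polynomial.coeff_sub, Polynomial.coeff_C_mul,
      Polynomial.coeff_X_pow, Polynomial.coeff_X_one, Polynomial.coeff_C]
    norm_num
  rw [Polynomial.nextCoeff, h2, if_neg (by norm_num)]
  show -(Polynomial.coeff _ 1) = _
  rw [h3, neg_neg]

theorem abs_discr_le (h : t ^ 2 < 4 * m) [NumberField (Kf t m)] :
    |NumberField.discr (Kf t m)| ≤ 4 * m - t ^ 2 := by
  classical
  obtain ⟨K, hK⟩ : ∃ K, K = Kf t m := ⟨_, rfl⟩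
  have hfr : Module.finrank ℤ (𝓞 (Kf t m)) = 2 := by
    rw [RingOfIntegers.rank, Kf_finrank h]
  let b0 := RingOfIntegers.basis (Kf t m)
  have hcard : Fintype.card (Module.Free.ChooseBasisIndex ℤ (𝓞 (Kf t m))) = 2 := by
    rw [← hfr, Module.finrank_eq_card_chooseBasisIndex]
  let b : Module.Basis (Fin 2) ℤ (𝓞 (Kf t m)) := b0.reindex (Fintype.equivFinOfCardEq hcard)
  have hbd : Algebra.discr ℤ b = NumberField.discr (Kf t m) := NumberField.discr_eq_discr _ b
  let v : Fin 2 → 𝓞 (Kf t m) := ![1, thO h]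
  have hv : Algebra.discr ℤ v = (b.toMatrix v).det ^ 2 * Algebra.discr ℤ b := by
    rw [← Algebra.discr_of_matrix_vecMul, Module.Basis.toMatrix_map_vecMul]
  have htr : ∀ x : 𝓞 (Kf t m), ∀ n : ℤ, Algebra.trace ℚ (Kf t m) (x : Kf t m) = (n : ℚ) →
      Algebra.trace ℤ (𝓞 (Kf t m)) x = n := by
    intro x n hx
    have := Algebra.coe_trace_int (K := Kf t m) x
    rw [hx] at this
    exact_mod_cast this
  have hgen : ((thO h : 𝓞 (Kf t m)) : Kf t m) = IntermediateField.AdjoinSimple.gen ℚ (th t m) := by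
    apply (algebraMap (Kf t m) ℂ).injective
    rw [IntermediateField.AdjoinSimple.algebraMap_gen]
    exact io_thO h
  have h0 : Algebra.trace ℤ (𝓞 (Kf t m)) 1 = 2 := by
    have : Algebra.trace ℤ (𝓞 (Kf t m)) 1 = ((Module.finrank ℤ (𝓞 (Kf t m)) : ℕ) : ℤ) := by
      have h1 := Algebra.trace_algebraMap_of_basis (R := ℤ) (S := 𝓞 (Kf t m)) b 1
      rw [map_one] at h1
      rw [h1, hfr]
      simp
    rw [this, hfr]; rfl
  have h1 : Algebra.trace ℤ (𝓞 (Kf t m)) (thO h) = t := by
    apply htr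
    rw [hgen, trace_th h]
  have h2 : Algebra.trace ℤ (𝓞 (Kf t m)) (thO h * thO h) = t ^ 2 - 2 * m := by
    have e1 : thO h * thO h = t • thO h - m • (1 : 𝓞 (Kf t m)) := by
      have e2 : thO h * thO h = (t : 𝓞 (Kf t m)) * thO h - (m : 𝓞 (Kf t m)) := (qdata h).hθ
      rw [e2, zsmul_eq_mul, zsmul_eq_mul, mul_one]
    rw [e1, map_sub, map_smul, map_smul, h0, h1]
    simp only [smul_eq_mul]
    ring
  have hd : Algebra.discr ℤ v = t ^ 2 - 4 * m := by
    rw [Algebra.discr_def, Matrix.det_fin_two]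
    simp only [Algebra.traceMatrix_apply, Algebra.traceForm_apply, v, Matrix.cons_val_zero,
      Matrix.cons_val_one, mul_one, one_mul]
    rw [h0, h1, h2]
    ring
  rw [hd, hbd] at hv
  have hP : (b.toMatrix v).det ^ 2 ≠ 0 := by
    intro h3
    rw [h3, zero_mul] at hv
    linarith
  have hP1 : 1 ≤ (b.toMatrix v).det ^ 2 := by
    have := sq_nonneg (b.toMatrix v).det
    omega
  have hneg : |t ^ 2 - 4 * m| = 4 * m - t ^ 2 := by
    rw [abs_of_neg (by linarith)]; ring
  rw [← hneg, hv, abs_mul, abs_of_nonneg (by linarith : (0 : ℤ) ≤ (b.toMatrix v).det ^ 2)]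
  have := abs_nonneg (NumberField.discr (Kf t m))
  nlinarith

end

end Pool.Agent.H56.Exact
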