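import Pool.Agent.CycSyl.QD

/-!
Classes of order exactly `p` from elements of norm `ρ g ^ p` with trace divisible by `ρ`.
-/

set_option autoImplicit false

namespace Pool.Agent.H56.Exact

open Pool.Agent.CycSyl Pool.Agent.CycSyl.Hz

section

variable {O : Type*} [CommRing O] [IsDedekindDomain O] {t m : ℤ} (D : QData O t m)

include D in
/-- norms and traces of elements: the quadratic form is positive -/
theorem nrm_tr_bound (hneg : t ^ 2 < 4 * m) (w : O) {τ N : ℤ} (hτ : w + D.σ w = (τ : O))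
    (hN : w * D.σ w = (N : O)) : τ ^ 2 ≤ 4 * N := by
  obtain ⟨a, b, hab⟩ := D.span w
  obtain ⟨F0, hF0⟩ : ∃ F0 : ℤ, F0 = t ^ 2 - 4 * m := ⟨_, rfl⟩
  rw [← hF0] at hab
  have hab' : (F0 : O) * D.σ w = (a : O) + (b : O) * ((t : O) - D.θ) := by
    have := congrArg D.σ hab
    rw [map_mul, map_add, map_mul, D.hσ, map_intCast, map_intCast, map_intCast] at this
    exact this
  have hF0O : (F0 : O) = (t : O) ^ 2 - 4 * m := by rw [hF0]; push_cast; ring
  have h2 : F0 ^ 2 * (τ ^ 2 - 4 * N) = b ^ 2 * F0 := by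
    apply D.int_inj
    push_cast
    rw [← hτ, ← hN]
    have e1 : (F0 : O) * (w - D.σ w) = b * (2 * D.θ - t) := by
      linear_combination hab - hab'
    have e2 : (2 * D.θ - (t : O)) * (2 * D.θ - t) = F0 := by
      rw [hF0O]; linear_combination 4 * D.hθ
    have e3 : ((F0 : O) * (w - D.σ w)) * ((F0 : O) * (w - D.σ w)) =
        b ^ 2 * F0 := by
      rw [e1, ← e2]; ring
    linear_combination e3
  have hF0neg : F0 < 0 := by rw [hF0]; linarith
  have h3 : F0 * (τ ^ 2 - 4 * N) = b ^ 2 := by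
    have : F0 * (F0 * (τ ^ 2 - 4 * N)) = F0 * b ^ 2 := by linear_combination h2
    exact mul_left_cancel₀ hF0neg.ne this
  by_contra h
  push Not at h
  nlinarith [sq_nonneg b]

include D in
theorem sq22 {τ : ℤ} (h : (22 : ℤ) ∣ τ ^ 2) : (22 : ℤ) ∣ τ := by
  have h2 : (2 : ℤ) ∣ τ := Int.prime_two.dvd_of_dvd_pow ((by norm_num : (2 : ℤ) ∣ 22).trans h)
  have h11 : (11 : ℤ) ∣ τ := by
    have hp : Prime (11 : ℤ) := by
      have := Nat.prime_iff_prime_int.1 (by norm_num : Nat.Prime 11)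
      exact_mod_cast this
    exact hp.dvd_of_dvd_pow ((by norm_num : (11 : ℤ) ∣ 22).trans h)
  omega

/-- an element of norm `22 g ^ p`, `g ≤ 5`, with trace divisible by `22` and prime to `g`: its
square divided by `22` is not a `p`-th power up to units -/
theorem no_bad (hneg : t ^ 2 < 4 * m) {g t1 : ℤ} {k : ℕ} (hg1 : 1 < g) (hg5 : g ≤ 5)
    (hm : m = 22 * g ^ (2 * k + 1)) (ht : t = 22 * t1) (hcop : IsCoprime t g)
    {η : O} (hη : (22 : O) * η = D.θ * D.θ) (hη' : η = (t1 : O) * D.θ - (g : O) ^ (2 * k + 1))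
    {γ u : O} (hu : IsUnit u) (h : η * u = γ ^ (2 * k + 1)) : False := by
  have hθ0 : D.θ ≠ 0 := by
    intro h0
    have := D.indep 0 1 (by rw [h0]; simp)
    exact one_ne_zero this.2
  have h22 : ((22 : ℤ) : O) ≠ 0 := D.int_ne (by norm_num)
  have h22' : (22 : O) ≠ 0 := by simpa using h22
  have hη0 : η ≠ 0 := by
    rintro rfl
    rw [mul_zero] at hη
    exact hθ0 (mul_self_eq_zero.1 hη.symm)
  have hγ0 : γ ≠ 0 := by
    rintro rfl
    rw [zero_pow (by omega)] at h
    exact hη0 ((mul_eq_zero.1 h).resolve_right hu.ne_zero)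
  -- `(θ u)² = 22 u γ (γ^k)²`
  have e1 : (D.θ * u) ^ 2 = (22 * u * γ) * (γ ^ k) ^ 2 := by
    have : (D.θ * u) ^ 2 = (D.θ * D.θ) * u * u := by ring
    rw [this, ← hη]
    have h2 : (22 : O) * η * u * u = 22 * (η * u) * u := by ring
    rw [h2, h]; ring
  have e2 : γ ^ k ∣ D.θ * u := by
    rw [← IsIntegrallyClosed.pow_dvd_pow_iff (n := 2) (by norm_num)]
    exact ⟨22 * u * γ, by rw [e1]; ring⟩
  obtain ⟨δ, hδ⟩ := e2
  have e3 : δ * δ = 22 * u * γ := by
    have h3 : (γ ^ k) ^ 2 ≠ 0 := pow_ne_zero _ (pow_ne_zero _ hγ0)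
    apply mul_right_cancel₀ h3
    rw [← e1, hδ]; ring
  obtain ⟨τ, hτ⟩ := D.trInt δ
  obtain ⟨N, hN⟩ := D.nrmInt δ
  obtain ⟨Nu, hNu⟩ := D.nrmInt u
  obtain ⟨Ng, hNg⟩ := D.nrmInt γ
  obtain ⟨T, hT⟩ := D.trInt (u * γ)
  obtain ⟨tu, htu⟩ := D.trInt u
  obtain ⟨tg, htg⟩ := D.trInt γ
  -- norm of the unit
  have hNu1 : Nu = 1 := by
    obtain ⟨v, hv⟩ := hu.exists_right_inv
    obtain ⟨Nv, hNv⟩ := D.nrmInt v
    have hNN : Nu * Nv = 1 := by
      apply D.int_inj
      rw [Int.cast_mul, ← hNu, ← hNv, Int.cast_one]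
      have h1 : D.σ u * D.σ v = 1 := by rw [← map_mul, hv, map_one]
      linear_combination (D.σ u * D.σ v) * hv + h1
    have hb := nrm_tr_bound D hneg u htu hNu
    rcases Int.eq_one_or_neg_one_of_mul_eq_one hNN with h | h
    · exact h
    · exfalso; rw [h] at hb; nlinarith [sq_nonneg tu]
  -- norm of `η`
  have hσθ : D.θ * D.σ D.θ = (m : O) := by
    rw [D.hσ]; linear_combination -D.hθ
  have hmO : (m : O) = 22 * (g : O) ^ (2 * k + 1) := by
    have := congrArg (Int.cast : ℤ → O) hm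
    push_cast at this; exact this
  have hση : (22 : O) * D.σ η = D.σ D.θ * D.σ D.θ := by
    have := congrArg D.σ hη
    rw [map_mul, map_mul] at this
    have h22σ : D.σ 22 = 22 := by
      have := map_intCast D.σ 22
      simpa using this
    rwa [h22σ] at this
  have hNη : η * D.σ η = (g : O) ^ (2 * (2 * k + 1)) := by
    apply mul_left_cancel₀ (mul_ne_zero h22' h22')
    have e1 : (22 : O) * 22 * (η * D.σ η) = (D.θ * D.σ D.θ) * (D.θ * D.σ D.θ) := by
      linear_combination (D.σ η * 22) * hη + (D.θ * D.θ) * hση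
    rw [e1, hσθ, hmO]; ring
  have hNg' : Ng ^ (2 * k + 1) = (g ^ 2) ^ (2 * k + 1) := by
    apply D.int_inj
    push_cast
    rw [← hNg, mul_pow, ← h, ← map_pow, ← h, map_mul]
    have h1 : u * D.σ u = 1 := by rw [hNu, hNu1]; simp
    have : η * u * (D.σ η * D.σ u) = (η * D.σ η) * (u * D.σ u) := by ring
    rw [this, h1, hNη]; ring
  have hNg1 : Ng = g ^ 2 := by
    have hodd : Odd (2 * k + 1) := ⟨k, rfl⟩
    exact hodd.strictMono_pow.injective hNg'
  -- norm of `δ`
  have hN2 : N ^ 2 = (22 * g) ^ 2 := by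
    apply D.int_inj
    push_cast
    have h1 : D.σ δ * D.σ δ = 22 * D.σ u * D.σ γ := by
      have := congrArg D.σ e3
      rw [map_mul, map_mul, map_mul] at this
      have h22σ : D.σ 22 = 22 := by
        have := map_intCast D.σ 22
        simpa using this
      rwa [h22σ] at this
    have h2 : u * D.σ u = 1 := by rw [hNu, hNu1]; simp
    have h3 : γ * D.σ γ = (g : O) ^ 2 := by rw [hNg, hNg1]; push_cast; rfl
    rw [← hN]
    have : (δ * D.σ δ) ^ 2 = (δ * δ) * (D.σ δ * D.σ δ) := by ring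
    rw [this, e3, h1]
    have : (22 : O) * u * γ * (22 * D.σ u * D.σ γ) = 22 ^ 2 * (u * D.σ u) * (γ * D.σ γ) := by ring
    rw [this, h2, h3]; ring
  have hδb := nrm_tr_bound D hneg δ hτ hN
  have hN0 : 0 ≤ N := by nlinarith [sq_nonneg τ]
  have hN1 : N = 22 * g := by
    have h1 : (0 : ℤ) ≤ 22 * g := by linarith
    exact (pow_left_inj₀ hN0 h1 (by norm_num)).1 hN2
  -- trace of `δ`
  have hτ2 : τ ^ 2 = 22 * (T + 2 * g) := by
    apply D.int_inj
    push_cast
    rw [← hτ, ← hT, map_mul]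
    have h1 : D.σ δ * D.σ δ = 22 * (D.σ u * D.σ γ) := by
      have := congrArg D.σ e3
      rw [map_mul, map_mul, map_mul] at this
      have h22σ : D.σ 22 = 22 := by
        have := map_intCast D.σ 22
        simpa using this
      rw [h22σ] at this
      rw [this]; ring
    have h2 : δ * D.σ δ = 22 * (g : O) := by rw [hN, hN1]; push_cast; rfl
    linear_combination e3 + h1 + 2 * h2
  obtain ⟨j, hj⟩ := sq22 D (τ := τ) ⟨_, hτ2⟩
  have hj0 : j = 0 := by
    by_contra h0
    rw [hN1, hj] at hδb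
    have h7 : 1 ≤ j ^ 2 := by
      have := sq_nonneg j
      have h8 : j ^ 2 ≠ 0 := pow_ne_zero 2 h0
      omega
    nlinarith
  rw [hj0, mul_zero] at hj
  have hσδ : D.σ δ = -δ := by
    rw [hj, Int.cast_zero] at hτ
    linear_combination hτ
  have e4 : u * γ = -(g : O) := by
    have h1 : δ * δ = -(22 * (g : O)) := by
      have h2 : δ * D.σ δ = 22 * (g : O) := by rw [hN, hN1]; push_cast; rfl
      rw [hσδ] at h2
      linear_combination -h2
    apply mul_left_cancel₀ h22'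
    linear_combination h1 - e3
  -- `g` divides `η`
  have e5 : (g : O) ∣ η := by
    have h1 : (u * γ) ^ (2 * k + 1) = u ^ (2 * k + 1) * (u * η) := by
      rw [mul_pow, ← h]; ring
    rw [e4] at h1
    have h2 : (g : O) ∣ (u ^ (2 * k + 1) * u) * η := by
      have : (u ^ (2 * k + 1) * u) * η = (-(g : O)) ^ (2 * k + 1) := by rw [h1]; ring
      rw [this, pow_succ]
      exact (dvd_neg.2 dvd_rfl).mul_left _
    exact (((hu.pow _).mul hu).dvd_mul_left).1 h2
  obtain ⟨w, hw⟩ := e5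
  obtain ⟨Tw, hTw⟩ := D.trInt w
  have e6 : t1 * t - 2 * g ^ (2 * k + 1) = g * Tw := by
    apply D.int_inj
    have h1 : η + D.σ η = ((t1 * t - 2 * g ^ (2 * k + 1) : ℤ) : O) := by
      rw [hη', map_sub, map_mul, map_pow, map_intCast, map_intCast, D.hσ]
      push_cast; ring
    rw [← h1, Int.cast_mul, ← hTw, hw, map_mul, map_intCast]
    ring
  have e7 : g ∣ t1 * t := by
    have : t1 * t = g * Tw + g * (2 * g ^ (2 * k)) := by
      rw [← e6]; ring
    rw [this]
    exact dvd_add (dvd_mul_right _ _) (dvd_mul_right _ _)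
  have e8 : IsCoprime (t1 * t) g := by
    apply IsCoprime.mul_left _ hcop
    apply hcop.of_isCoprime_of_dvd_left
    exact ⟨22, by rw [ht]; ring⟩
  have e9 := e8.isUnit_of_dvd' e7 dvd_rfl
  rw [Int.isUnit_iff] at e9
  omega

include D in
/-- a class of order exactly `p` -/
theorem exists_order {p : ℕ} (hp : p.Prime) (hp2 : p ≠ 2) (hneg : t ^ 2 < 4 * m) {g t1 : ℤ}
    (hg1 : 1 < g) (hg5 : g ≤ 5) (hm : m = 22 * g ^ p) (ht : t = 22 * t1) (hcop : IsCoprime t g) :
    ∃ C : ClassGroup O, orderOf C = p := by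
  obtain ⟨k, hk⟩ := hp.odd_of_ne_two hp2
  have hp0 : p ≠ 0 := hp.ne_zero
  have h22O : ((22 : ℤ) : O) ≠ 0 := D.int_ne (by norm_num)
  have h22 : (22 : O) ≠ 0 := by simpa using h22O
  obtain ⟨η, hη⟩ : ∃ η : O, η = (t1 : O) * D.θ - (g : O) ^ p := ⟨_, rfl⟩
  have htO : (t : O) = 22 * t1 := by
    have := congrArg (Int.cast : ℤ → O) ht
    push_cast at this; exact this
  have hmO : (m : O) = 22 * (g : O) ^ p := by
    have := congrArg (Int.cast : ℤ → O) hm
    push_cast at this; exact this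
  have h1 : 22 * η = D.θ * D.θ := by
    rw [hη, D.hθ]
    linear_combination hmO - D.θ * htO
  have hσθ : D.θ * D.σ D.θ = (m : O) := by
    rw [D.hσ]; linear_combination -D.hθ
  have h1' : 22 * D.σ η = D.σ D.θ * D.σ D.θ := by
    have := congrArg D.σ h1
    rw [map_mul, map_mul] at this
    have h22σ : D.σ 22 = 22 := by
      have := map_intCast D.σ 22
      simpa using this
    rwa [h22σ] at this
  have h2 : η * D.σ η = ((g : O) ^ 2) ^ p := by
    apply mul_left_cancel₀ (mul_ne_zero h22 h22)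
    have e1 : (22 : O) * 22 * (η * D.σ η) = (D.θ * D.σ D.θ) * (D.θ * D.σ D.θ) := by
      linear_combination (D.σ η * 22) * h1 + (D.θ * D.θ) * h1'
    rw [e1, hσθ, hmO]; ring
  have h3 : η + D.σ η = ((t1 * t - 2 * g ^ p : ℤ) : O) := by
    rw [hη, map_sub, map_mul, map_pow, map_intCast, map_intCast, D.hσ]
    push_cast; ring
  have hcop1 : IsCoprime (t1 * t - 2 * g ^ p) ((g ^ 2) ^ p) := by
    apply IsCoprime.pow_right
    apply IsCoprime.pow_right
    have ha : IsCoprime (t1 * t) g := by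
      apply IsCoprime.mul_left _ hcop
      apply hcop.of_isCoprime_of_dvd_left
      exact ⟨22, by rw [ht]; ring⟩
    have hb : t1 * t - 2 * g ^ p = t1 * t + g * (-2 * g ^ (p - 1)) := by
      obtain ⟨k, rfl⟩ := Nat.exists_eq_succ_of_ne_zero hp0
      simp only [Nat.succ_eq_add_one, Nat.add_sub_cancel]
      ring
    rw [hb]
    exact ha.add_mul_left_left _
  have hcopO : IsCoprime (Ideal.span {η}) (Ideal.span {D.σ η}) := by
    rw [Ideal.isCoprime_span_singleton_iff]
    obtain ⟨A, B, hAB⟩ := hcop1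
    have h4 := congrArg (Int.cast : ℤ → O) hAB
    rw [Int.cast_add, Int.cast_mul, ← h3, Int.cast_mul] at h4
    have h5 : (((g ^ 2) ^ p : ℤ) : O) = η * D.σ η := by rw [h2]; push_cast; ring
    rw [h5, Int.cast_one] at h4
    exact ⟨(A : O) + (B : O) * D.σ η, (A : O), by linear_combination h4⟩
  have h6 : Ideal.span {η} * Ideal.span {D.σ η} = (Ideal.span {(g : O) ^ 2}) ^ p := by
    rw [Ideal.span_singleton_mul_span_singleton, h2, Ideal.span_singleton_pow]
  obtain ⟨A, hA⟩ := exists_eq_pow_of_mul_eq_pow_of_coprime hcopO h6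
  have hθ0 : D.θ ≠ 0 := by
    intro h0
    have := D.indep 0 1 (by rw [h0]; simp)
    exact one_ne_zero this.2
  have hη0 : η ≠ 0 := by
    intro h0
    rw [h0, mul_zero] at h1
    exact hθ0 (mul_self_eq_zero.1 h1.symm)
  have hA0 : A ≠ 0 := by
    rintro rfl
    rw [zero_pow hp0] at hA
    exact hη0 (Ideal.span_singleton_eq_bot.1 hA)
  have hAm : A ∈ nonZeroDivisors (Ideal O) := mem_nonZeroDivisors_iff_ne_zero.2 hA0
  refine ⟨ClassGroup.mk0 ⟨A, hAm⟩, ?_⟩
  have : Fact p.Prime := ⟨hp⟩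
  apply orderOf_eq_prime
  · rw [← map_pow]
    have e2 : (⟨A, hAm⟩ : nonZeroDivisors (Ideal O)) ^ p = ⟨A ^ p, pow_mem hAm _⟩ := rfl
    rw [e2, ClassGroup.mk0_eq_one_iff, ← hA]
    exact ⟨η, rfl⟩
  · intro h7
    rw [ClassGroup.mk0_eq_one_iff] at h7
    obtain ⟨γ, hγ⟩ := h7
    have h8 : Ideal.span {η} = Ideal.span {γ ^ p} := by
      rw [hA, hγ, ← Ideal.span_singleton_pow]
    rw [Ideal.span_singleton_eq_span_singleton] at h8
    obtain ⟨u, hu⟩ := h8
    have hk' : 2 * k + 1 = p := hk.symm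
    exact no_bad D hneg (k := k) hg1 hg5 (by rw [hk']; exact hm) ht hcop h1
      (by rw [hk']; exact hη) u.isUnit (by rw [hk']; exact hu)

end

end Pool.Agent.H56.Exact
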