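import Pool.Agent.H56.Exact.PP
import Pool.Agent.H56.Exact.Ord
import Pool.Agent.H56.Exact.Disc
import Pool.Agent.CycSyl.Act2

/-!
For every odd prime `p` and `s = 3, 5` there is an imaginary quadratic field `K` such that the
`p`-part of the class group has order `p ^ k` with `k ≥ 1` and `p ^ k` dividing `s ^ p - s`.
-/

set_option autoImplicit false

namespace Pool.Agent.H56.Exact

open Pool.Agent.CycSyl Pool.Agent.CycSyl.Hz Finset NumberField

/-- the order of the `p`-primary part -/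
theorem card_part {G : Type*} [CommGroup G] [Finite G] {p w : ℕ} (hp : p.Prime) (g : G)
    (hg : orderOf g = p) (hcard : ¬ p ^ (w + 1) ∣ Nat.card G) :
    ∃ k, 1 ≤ k ∧ k ≤ w ∧
      Nat.card ↥(Subgroup.closure {g : G | ∃ n : ℕ, g ^ (p ^ n) = 1}) = p ^ k := by
  have : Fact p.Prime := ⟨hp⟩
  obtain ⟨S, hS⟩ : ∃ S : Subgroup G, S = Subgroup.closure {g : G | ∃ n : ℕ, g ^ (p ^ n) = 1} :=
    ⟨_, rfl⟩
  rw [← hS]
  have hmem : ∀ x ∈ S, ∃ n : ℕ, x ^ (p ^ n) = 1 := by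
    intro x hx
    rw [hS] at hx
    induction hx using Subgroup.closure_induction with
    | mem x hx => exact hx
    | one => exact ⟨0, one_pow _⟩
    | mul x y _ _ hx hy =>
      obtain ⟨a, ha⟩ := hx
      obtain ⟨b, hb⟩ := hy
      refine ⟨a + b, ?_⟩
      rw [mul_pow, pow_add, pow_mul, ha, one_pow, one_mul, mul_comm (p ^ a), pow_mul, hb, one_pow]
    | inv x _ hx =>
      obtain ⟨a, ha⟩ := hx
      exact ⟨a, by rw [inv_pow, ha, inv_one]⟩
  have hpg : IsPGroup p S := by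
    rintro ⟨x, hx⟩
    obtain ⟨n, hn⟩ := hmem x hx
    exact ⟨n, Subtype.ext hn⟩
  obtain ⟨k, hk⟩ := IsPGroup.iff_card.1 hpg
  have hdvd : p ^ k ∣ Nat.card G := by rw [← hk]; exact Subgroup.card_subgroup_dvd_card S
  have hkw : k ≤ w := by
    by_contra h
    apply hcard
    exact (pow_dvd_pow p (by omega)).trans hdvd
  have hgS : g ∈ S := by
    rw [hS]
    apply Subgroup.subset_closure
    exact ⟨1, by rw [pow_one, ← hg]; exact pow_orderOf_eq_one g⟩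
  have hord : orderOf (⟨g, hgS⟩ : S) = p := by
    rw [← hg]; exact Subgroup.orderOf_mk g hgS
  have hvk : p ∣ p ^ k := by
    rw [← hk]
    conv_lhs => rw [← hord]
    exact orderOf_dvd_natCard _
  have hk1 : 1 ≤ k := by
    by_contra h
    have hk0 : k = 0 := by omega
    rw [hk0, pow_zero] at hvk
    exact hp.one_lt.ne' (Nat.dvd_one.1 hvk)
  exact ⟨k, hk1, hkw, hk⟩

/-- trace classes are admissible sets -/
theorem eset (N : ℕ) (t : ℤ) : ESet ((Y N).filter (fun x => PP x ∧ tr x = t)) t N where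
  tr x hx := (Finset.mem_filter.1 hx).2.2
  nrm x hx := mem_Y.1 (Finset.mem_filter.1 hx).1
  cl x hx β x' hβ hβ22 h := by
    rw [Finset.mem_filter, mem_Y] at hx ⊢
    obtain ⟨hn, hP, ht⟩ := hx
    have hβn0 : nrm β ≠ 0 := by
      intro h0; rw [h0] at hβ22
      have := hβ22.isUnit_of_dvd' (dvd_zero (22 : ℤ)) dvd_rfl
      rw [Int.isUnit_iff] at this; omega
    refine ⟨?_, ?_, ?_⟩
    · have h1 := congrArg nrm h
      rw [nrm_mul, nrm_mul, hn, mul_comm] at h1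
      exact (mul_right_cancel₀ hβn0 h1).symm
    · rw [← PP_right hβ.1 (cop11 hβ22), ← h, PP_left hβ.1 (cop11 hβ22)]
      exact hP
    · have h1 : x' * sc (nrm β) = β * x * conj β := by rw [h, mul_assoc, mul_conj]
      have h2 := congrArg tr h1
      rw [← sc_comm, tr_sc_mul, tr_mul_comm, ← mul_assoc, conj_mul_self, tr_sc_mul, ht] at h2
      exact mul_left_cancel₀ hβn0 h2

/-- a prime to `2` exponent in the norm forces the element to be irrational -/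
theorem disc_lt {x : Hz ℤ} {n : ℤ} (hn : nrm x = 22 * n) (h11 : ¬ (11 : ℤ) ∣ n) :
    (tr x) ^ 2 < 4 * nrm x := by
  have h4 := four_nrm x
  have h1 : 4 * nrm x - (tr x) ^ 2 = (2 * x.b + x.d) ^ 2 + (2 * x.c + x.d) ^ 2 + x.d ^ 2 := by
    unfold tr; linarith
  by_contra h
  have h2 : (2 * x.b + x.d) ^ 2 + (2 * x.c + x.d) ^ 2 + x.d ^ 2 ≤ 0 := by linarith
  have hd : x.d = 0 := by
    have : x.d ^ 2 = 0 := by nlinarith [sq_nonneg (2 * x.b + x.d), sq_nonneg (2 * x.c + x.d), sq_nonneg x.d]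
    exact pow_eq_zero_iff (two_ne_zero) |>.1 this
  rw [hd] at h2
  have hb : x.b = 0 := by
    have : x.b ^ 2 = 0 := by nlinarith [sq_nonneg x.b, sq_nonneg x.c]
    exact pow_eq_zero_iff (two_ne_zero) |>.1 this
  have hc : x.c = 0 := by
    have : x.c ^ 2 = 0 := by nlinarith [sq_nonneg x.b, sq_nonneg x.c]
    exact pow_eq_zero_iff (two_ne_zero) |>.1 this
  have hxs : x = sc x.a := by ext <;> simp [hb, hc, hd]
  rw [hxs, nrm_sc] at hn
  have hp : Prime (11 : ℤ) := by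
    have := Nat.prime_iff_prime_int.1 (by norm_num : Nat.Prime 11)
    exact_mod_cast this
  have h5 : (11 : ℤ) ∣ x.a ^ 2 := by rw [hn]; exact ⟨2 * n, by ring⟩
  obtain ⟨k, hk⟩ := hp.dvd_of_dvd_pow h5
  rw [hk] at hn
  apply h11
  have h6 : 2 * n = 11 * k ^ 2 := by linarith
  have h7 : (11 : ℤ) ∣ 2 * n := ⟨_, h6⟩
  exact (hp.dvd_or_dvd h7).resolve_left (by norm_num)

/-- divisibility of the count -/
theorem count_div (e : ℕ) {s : ℕ} {k : ℕ} (hs11 : ¬ (11 : ℤ) ∣ (s : ℤ) ^ k)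
    (h : ∀ x ∈ Y (s ^ k * 22), PP x → ¬ (s : ℤ) ∣ tr x →
      e ∣ Nat.card (ClassGroup (𝓞 (Kf (tr x) ((s ^ k * 22 : ℕ) : ℤ))))) :
    (e : ℤ) ∣ C (fun x => PP x ∧ ¬ (s : ℤ) ∣ tr x) (s ^ k * 22) := by
  classical
  rw [C_def]
  norm_cast
  rw [Finset.card_eq_sum_card_image (fun x => tr x)]
  apply Finset.dvd_sum
  intro t ht
  obtain ⟨x, hx, hxt⟩ := Finset.mem_image.1 ht
  rw [Finset.mem_filter] at hx
  obtain ⟨hx1, hx2, hx3⟩ := hx
  have hxt' : tr x = t := hxt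
  have h1 := h x hx1 hx2 hx3
  rw [hxt'] at h1 hx3
  have hlt := disc_lt (x := x) (n := (s : ℤ) ^ k) (by rw [mem_Y.1 hx1]; push_cast; ring) hs11
  rw [hxt', mem_Y.1 hx1] at hlt
  have := Kf_numberField hlt
  have h2 := (qdata hlt).card_dvd (eset (s ^ k * 22) t)
  have h3 : ((Y (s ^ k * 22)).filter (fun x => PP x ∧ ¬ (s : ℤ) ∣ tr x)).filter
      (fun x => tr x = t) = (Y (s ^ k * 22)).filter (fun x => PP x ∧ tr x = t) := by
    ext y
    simp only [Finset.mem_filter]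
    constructor
    · rintro ⟨⟨h4, h5, _⟩, h6⟩; exact ⟨h4, h5, h6⟩
    · rintro ⟨h4, h5, h6⟩; exact ⟨⟨h4, h5, by rw [h6]; exact hx3⟩, h6⟩
  rw [h3]
  exact h1.trans h2

/-- the main theorem -/
theorem main {p : ℕ} (hp : p.Prime) (hp2 : p ≠ 2) {s : ℕ} (hs : s = 3 ∨ s = 5) :
    ∃ K : IntermediateField ℚ ℂ, ∃ _ : NumberField K,
      Module.finrank ℚ K = 2 ∧ (∃ x : K, (x : ℂ).im ≠ 0) ∧
      |NumberField.discr K| ≤ 88 * (s : ℤ) ^ p ∧
      ∃ k : ℕ, 1 ≤ k ∧ p ^ k ∣ s ^ p - s ∧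
        Nat.card ↥(Subgroup.closure {g : ClassGroup (𝓞 K) | ∃ n : ℕ, g ^ (p ^ n) = 1}) =
          p ^ k := by
  have hsp : s.Prime := by rcases hs with rfl | rfl <;> norm_num
  have hs22 : s.Coprime 22 := by rcases hs with rfl | rfl <;> decide
  have hs5 : s ≤ 5 := by omega
  have hs1 : 1 < s := by omega
  have hs11 : ∀ k, ¬ (11 : ℤ) ∣ (s : ℤ) ^ k := by
    intro k h
    have h1 : 11 ∣ s ^ k := by exact_mod_cast h
    have h2 := (by norm_num : Nat.Prime 11).dvd_of_dvd_pow h1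
    rcases hs with rfl | rfl <;> omega
  have h3p : 3 ≤ p := by
    have := hp.two_le
    omega
  obtain ⟨j, hj⟩ : ∃ j, p = 2 * j + 3 := by
    obtain ⟨j, hj⟩ := hp.odd_of_ne_two hp2
    exact ⟨j - 1, by omega⟩
  -- the valuation
  have hlt : s < s ^ p := by
    calc s = s ^ 1 := (pow_one s).symm
      _ < s ^ p := Nat.pow_lt_pow_right hs1 (by omega)
  have hne : s ^ p - s ≠ 0 := by omega
  obtain ⟨w, c, hc, hwc⟩ := Nat.exists_eq_pow_mul_and_not_dvd hne p hp.ne_one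
  have hw1 : ¬ p ^ (w + 1) ∣ s ^ p - s := by
    rw [hwc, pow_succ]
    intro h
    exact hc (Nat.dvd_of_mul_dvd_mul_left (pow_pos hp.pos w) h)
  have hex : ∃ x ∈ Y (s ^ p * 22), PP x ∧ ¬ (s : ℤ) ∣ tr x ∧
      ¬ p ^ (w + 1) ∣ Nat.card (ClassGroup (𝓞 (Kf (tr x) ((s ^ p * 22 : ℕ) : ℤ)))) := by
    by_contra hno
    push Not at hno
    have h1 := count_div (p ^ (w + 1)) (hs11 p) (fun x hx hP hst => hno x hx hP hst)
    have h2 := C_good hsp hs22 hs5 j
    rw [← hj] at h2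
    rw [h2] at h1
    have h3 : ((2 * (s ^ p - s) : ℕ) : ℤ) = 2 * ((s : ℤ) ^ p - s) := by
      push_cast [hlt.le]; ring
    rw [← h3] at h1
    have h4 : p ^ (w + 1) ∣ 2 * (s ^ p - s) := by exact_mod_cast h1
    have h5 : (p ^ (w + 1)).Coprime 2 := by
      apply Nat.Coprime.pow_left
      exact (Nat.coprime_primes hp Nat.prime_two).2 hp2
    exact hw1 (h5.dvd_of_dvd_mul_left h4)
  obtain ⟨x, hx, hP, hst, hcl⟩ := hex
  have hnx := mem_Y.1 hx
  have hdl := disc_lt (x := x) (n := (s : ℤ) ^ p) (by rw [hnx]; push_cast; ring) (hs11 p)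
  rw [hnx] at hdl
  have hNF := Kf_numberField hdl
  obtain ⟨t1, ht1⟩ := dvd22_tr hP (by rw [hnx]; push_cast; exact ⟨11 * (s : ℤ) ^ p, by ring⟩)
  have hsprime : Prime (s : ℤ) := Nat.prime_iff_prime_int.1 hsp
  obtain ⟨g, hg⟩ := exists_order (qdata hdl) hp hp2 hdl (g := (s : ℤ)) (t1 := t1)
    (by exact_mod_cast hs1) (by exact_mod_cast hs5) (by push_cast; ring) ht1
    ((hsprime.coprime_iff_not_dvd).2 hst).symm
  obtain ⟨k, hk1, hkw, hk⟩ := card_part hp g hg hcl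
  refine ⟨Kf (tr x) ((s ^ p * 22 : ℕ) : ℤ), hNF, Kf_finrank hdl,
    ⟨⟨th (tr x) ((s ^ p * 22 : ℕ) : ℤ), th_mem⟩, th_im hdl⟩, ?_, k, hk1, ?_, hk⟩
  · refine (abs_discr_le hdl).trans ?_
    have := sq_nonneg (tr x)
    push_cast
    linarith
  · rw [hwc]
    exact (pow_dvd_pow p hkw).mul_right c

end Pool.Agent.H56.Exact
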