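import Pool.Agent.H56.Exact.Cnt

/-!
The two-sided ideal of norm 11 of the level 11 order and the counts of its elements of norm
`22 s ^ k`.
-/

set_option autoImplicit false

namespace Pool.Agent.H56.Exact

open Pool.Agent.CycSyl Pool.Agent.CycSyl.Hz Finset

/-- the two-sided ideal of norm 11 of the level 11 order -/
def PP (x : Hz ℤ) : Prop := InO x ∧ lam x = 0 ∧ lam (conj x) = 0

instance : DecidablePred PP := fun _ => by unfold PP; infer_instance

theorem PP_right {x y : Hz ℤ} (hy : InO y) (hn : ((nrm y : ℤ) : ZMod 11) ≠ 0) :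
    PP (x * y) ↔ PP x := by
  have hly := lam_ne_zero hy hn
  have hcn : ((nrm (conj y) : ℤ) : ZMod 11) ≠ 0 := by rw [nrm_conj]; exact hn
  have hlcy := lam_ne_zero (InO_conj hy) hcn
  constructor
  · rintro ⟨h1, h2, h3⟩
    have hx : InO x := InO_left hy hn h1
    refine ⟨hx, ?_, ?_⟩
    · rw [lam_mul hx hy] at h2
      exact (mul_eq_zero.1 h2).resolve_right hly
    · rw [Hz.conj_mul, lam_mul (InO_conj hy) (InO_conj hx)] at h3
      exact (mul_eq_zero.1 h3).resolve_left hlcy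
  · rintro ⟨h1, h2, h3⟩
    refine ⟨InO_mul h1 hy, ?_, ?_⟩
    · rw [lam_mul h1 hy, h2, zero_mul]
    · rw [Hz.conj_mul, lam_mul (InO_conj hy) (InO_conj h1), h3, mul_zero]

theorem PP_left {x y : Hz ℤ} (hy : InO y) (hn : ((nrm y : ℤ) : ZMod 11) ≠ 0) :
    PP (y * x) ↔ PP x := by
  have hly := lam_ne_zero hy hn
  have hcn : ((nrm (conj y) : ℤ) : ZMod 11) ≠ 0 := by rw [nrm_conj]; exact hn
  have hlcy := lam_ne_zero (InO_conj hy) hcn
  constructor
  · rintro ⟨h1, h2, h3⟩
    have hx : InO x := InO_right hy hn h1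
    refine ⟨hx, ?_, ?_⟩
    · rw [lam_mul hy hx] at h2
      exact (mul_eq_zero.1 h2).resolve_left hly
    · rw [Hz.conj_mul, lam_mul (InO_conj hx) (InO_conj hy)] at h3
      exact (mul_eq_zero.1 h3).resolve_right hlcy
  · rintro ⟨h1, h2, h3⟩
    refine ⟨InO_mul hy h1, ?_, ?_⟩
    · rw [lam_mul hy h1, h2, mul_zero]
    · rw [Hz.conj_mul, lam_mul (InO_conj h1) (InO_conj hy), h3, zero_mul]

theorem stab_PP {s : ℕ} (hs : s.Prime) (h11 : s ≠ 11) : Stab s PP where
  sc x := by
    apply PP_left (InO_sc _)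
    rw [nrm_sc]
    have := zmod_ne_zero_of_prime hs h11
    push_cast at this ⊢
    exact pow_ne_zero 2 this
  right x y hy hn := PP_right hy.1 (by rw [hn]; exact zmod_ne_zero_of_prime hs h11)
  left x y hy hn := PP_left (InO_conj hy.1) (by
    rw [nrm_conj, hn]; exact zmod_ne_zero_of_prime hs h11)

theorem PP_tr {x : Hz ℤ} (h : PP x) : (11 : ℤ) ∣ tr x := by
  obtain ⟨h1, h2, h3⟩ := h
  rw [lam_conj h1, h2, sub_zero, ZMod.intCast_zmod_eq_zero_iff_dvd] at h3
  exact_mod_cast h3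

/-- even norm forces even trace -/
theorem two_dvd_tr {x : Hz ℤ} (h : (2 : ℤ) ∣ nrm x) : (2 : ℤ) ∣ tr x := by
  have key : ∀ a b c d : ZMod 2, a ^ 2 + b ^ 2 + c ^ 2 + d ^ 2 + d * (a + b + c) = 0 →
      2 * a + d = 0 := by decide
  have h1 : ((nrm x : ℤ) : ZMod 2) = 0 := by
    rw [ZMod.intCast_zmod_eq_zero_iff_dvd]; exact_mod_cast h
  have h2 : ((tr x : ℤ) : ZMod 2) = 0 := by
    unfold nrm at h1
    unfold tr
    push_cast at h1 ⊢
    exact key _ _ _ _ h1
  rw [ZMod.intCast_zmod_eq_zero_iff_dvd] at h2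
  exact_mod_cast h2

theorem tr_sq_le (x : Hz ℤ) : (tr x) ^ 2 ≤ 4 * nrm x := by
  have h4 := four_nrm x
  have : (tr x) ^ 2 = (2 * x.a + x.d) ^ 2 := rfl
  nlinarith [sq_nonneg (2 * x.b + x.d), sq_nonneg (2 * x.c + x.d), sq_nonneg x.d]

theorem dvd22_tr {x : Hz ℤ} (h : PP x) (h2 : (2 : ℤ) ∣ nrm x) : (22 : ℤ) ∣ tr x := by
  have h3 := PP_tr h
  have h4 := two_dvd_tr h2
  omega

theorem tr_zero_of_small {x : Hz ℤ} (h : PP x) {n : ℤ} (hn : nrm x = 22 * n) (hn5 : n ≤ 5) :
    tr x = 0 := by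
  obtain ⟨k, hk⟩ := dvd22_tr h (by rw [hn]; exact ⟨11 * n, by ring⟩)
  have h5 := tr_sq_le x
  rw [hn, hk] at h5
  have h6 : k = 0 := by
    by_contra h0
    have h7 : 1 ≤ k ^ 2 := by
      have := sq_nonneg k
      have h8 : k ^ 2 ≠ 0 := pow_ne_zero 2 h0
      omega
    nlinarith
  rw [hk, h6, mul_zero]

theorem base_key : ∀ a ∈ Finset.Icc (-9 : ℤ) 9, ∀ b ∈ Finset.Icc (-9 : ℤ) 9,
      ∀ c ∈ Finset.Icc (-9 : ℤ) 9,
      a ^ 2 + b ^ 2 + c ^ 2 + (-2 * a) ^ 2 + (-2 * a) * (a + b + c) = 22 →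
      lf ⟨a, b, c, -2 * a⟩ = 0 → lam ⟨a, b, c, -2 * a⟩ = 0 →
      (a = 3 ∧ b = 1 ∧ c = 0) ∨ (a = -3 ∧ b = -1 ∧ c = 0) := by
  decide +kernel

theorem C_base : C PP 22 = 2 := by
  rw [C_def]
  have : (Y 22).filter PP = {⟨3, 1, 0, -6⟩, ⟨-3, -1, 0, 6⟩} := by
    ext x
    simp only [Finset.mem_filter, mem_Y, Finset.mem_insert, Finset.mem_singleton]
    constructor
    · rintro ⟨h1, h2⟩
      have h0 := tr_zero_of_small h2 (n := 1) (by rw [h1]; norm_num) (by norm_num)
      have h4 := four_nrm x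
      rw [h1] at h4
      push_cast at h4
      obtain ⟨a, b, c, d⟩ := x
      have hd : d = -2 * a := by
        unfold tr at h0
        simp only at h0
        linarith
      subst hd
      simp only at h4
      have e0 := sq_nonneg (2 * a + -2 * a)
      have e1 := sq_nonneg (2 * b + -2 * a)
      have e2 := sq_nonneg (2 * c + -2 * a)
      have e3 := sq_nonneg (-2 * a)
      have f1 := abs_le_of_sq (z := 2 * b + -2 * a) (n := 10) (by norm_num) (by linarith)
      have f2 := abs_le_of_sq (z := 2 * c + -2 * a) (n := 10) (by norm_num) (by linarith)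
      have f3 := abs_le_of_sq (z := -2 * a) (n := 10) (by norm_num) (by linarith)
      have ha : a ∈ Finset.Icc (-9 : ℤ) 9 := by rw [Finset.mem_Icc]; omega
      have hbc : (b ∈ Finset.Icc (-10 : ℤ) 10) ∧ (c ∈ Finset.Icc (-10 : ℤ) 10) := by
        simp only [Finset.mem_Icc]; omega
      -- sharper bounds
      have g1 : (b - a) ^ 2 + (c - a) ^ 2 + a ^ 2 = 22 := by linarith
      have ga := abs_le_of_sq (z := a) (n := 4) (by norm_num) (by
        by_contra hh
        push Not at hh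
        have h5 : a ^ 2 ≤ 22 := by linarith [sq_nonneg (b - a), sq_nonneg (c - a)]
        have h6 : -5 < a ∧ a < 5 := by constructor <;> nlinarith
        have : a ≤ 4 ∧ -4 ≤ a := by omega
        nlinarith)
      have gb := abs_le_of_sq (z := b - a) (n := 4) (by norm_num) (by
        by_contra hh
        push Not at hh
        have h5 : (b - a) ^ 2 ≤ 22 := by linarith [sq_nonneg a, sq_nonneg (c - a)]
        have h6 : -5 < b - a ∧ b - a < 5 := by constructor <;> nlinarith
        have : b - a ≤ 4 ∧ -4 ≤ b - a := by omega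
        nlinarith)
      have gc := abs_le_of_sq (z := c - a) (n := 4) (by norm_num) (by
        by_contra hh
        push Not at hh
        have h5 : (c - a) ^ 2 ≤ 22 := by linarith [sq_nonneg a, sq_nonneg (b - a)]
        have h6 : -5 < c - a ∧ c - a < 5 := by constructor <;> nlinarith
        have : c - a ≤ 4 ∧ -4 ≤ c - a := by omega
        nlinarith)
      have hb : b ∈ Finset.Icc (-9 : ℤ) 9 := by rw [Finset.mem_Icc]; omega
      have hc : c ∈ Finset.Icc (-9 : ℤ) 9 := by rw [Finset.mem_Icc]; omega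
      rcases base_key a ha b hb c hc (by unfold nrm at h1; exact_mod_cast h1) h2.1 h2.2.1 with
        ⟨rfl, rfl, rfl⟩ | ⟨rfl, rfl, rfl⟩
      · left; rfl
      · right; rfl
    · rintro (rfl | rfl) <;> decide
  rw [this]
  rw [Finset.card_pair (by decide)]
  rfl

section

variable {s : ℕ} (hs : s.Prime) (hs22 : s.Coprime 22)

include hs hs22

theorem not_dvd22 : ¬ s ∣ 22 := by
  intro h
  have h1 : s ∣ Nat.gcd s 22 := Nat.dvd_gcd dvd_rfl h
  rw [hs22] at h1
  exact hs.one_lt.ne' (Nat.dvd_one.1 h1)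

/-- the number of elements of norm `22 s ^ k` -/
theorem C_pow (k : ℕ) : ((s : ℤ) - 1) * C PP (s ^ k * 22) = 2 * ((s : ℤ) ^ (k + 1) - 1) := by
  have h11 := ne11_of hs22
  have hX : ((X s).card : ℤ) = s + 1 := by rw [card_X hs hs22]; push_cast; rfl
  induction k using Nat.twoStepInduction with
  | zero => rw [pow_zero, one_mul, C_base]; ring
  | one =>
    rw [pow_one, hecke1 hs h11 (not_dvd22 hs hs22) (stab_PP hs h11), C_base, hX]; ring
  | more k ih1 ih2 =>
    have h2 := hecke2 (m := s ^ k * 22) hs h11 (stab_PP hs h11)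
    have e1 : s ^ (k + 2) * 22 = s * (s * (s ^ k * 22)) := by ring
    have e2 : s ^ (k + 1) * 22 = s * (s ^ k * 22) := by ring
    rw [e2] at ih2
    rw [e1, h2, hX]
    linear_combination ((s : ℤ) + 1) * ih2 - (s : ℤ) * ih1

/-- the number of elements of norm `22 s ^ k` with trace prime to `s` -/
theorem C_good (hs5 : s ≤ 5) (j : ℕ) :
    C (fun x => PP x ∧ ¬ (s : ℤ) ∣ tr x) (s ^ (2 * j + 3) * 22) =
      2 * ((s : ℤ) ^ (2 * j + 3) - s) := by
  have h11 := ne11_of hs22
  have hX : ((X s).card : ℤ) = s + 1 := by rw [card_X hs hs22]; push_cast; rfl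
  have hV := C_V hs hs22 (not_dvd22 hs hs22) (stab_PP hs h11) j
  have hb : C (fun x => PP x ∧ (s : ℤ) ∣ tr x) (s * 22) = C PP (s * 22) := by
    apply C_congr
    intro x hx
    constructor
    · exact fun h => h.1
    · intro h
      refine ⟨h, ?_⟩
      rw [tr_zero_of_small h (n := s) (by rw [mem_Y.1 hx]; push_cast; ring)
        (by exact_mod_cast hs5)]
      exact dvd_zero _
  have h0 := C_pow hs hs22 1
  have h1 := C_pow hs hs22 (2 * j + 1)
  have h3 := C_pow hs hs22 (2 * j + 3)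
  rw [pow_one] at h0
  rw [hb, hX] at hV
  have hs1 : ((s : ℤ) - 1) ≠ 0 := by
    have := hs.one_lt
    have : (1 : ℤ) < s := by exact_mod_cast this
    linarith
  apply mul_left_cancel₀ hs1
  linear_combination -((s : ℤ) - 1) * hV + h3 - (s : ℤ) * h1 - h0

end

end Pool.Agent.H56.Exact
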